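import Pool.Agent.Helper859.NC.Alg

set_option autoImplicit false
open Finset Filter Topology MeasureTheory

namespace Pool.Agent.Results.MP_3833d7_an.CoronaFails

/-- Convolution on `ℤ`. If `c`, `d` are the Fourier coefficients of `φ`, `ψ`, it gives those of the product `φ ψ`. -/
noncomputable def conv (c d : ℤ → ℂ) (n : ℤ) : ℂ := ∑' k : ℤ, c (n - k) * d k

/-- `φ ∈ M_p`, for the function `φ` with Fourier coefficients `c`: multiplication by `φ`, i.e. convolution with `c`, is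
bounded for the norm of `ℓ_p` on trigonometric polynomials (finitely supported coefficient sequences `a`).
`eLpNorm · p Measure.count` is the `ℓ^p(ℤ)` norm. -/
def MemM (p : ENNReal) (c : ℤ → ℂ) : Prop :=
  ∃ K : NNReal, ∀ a : ℤ →₀ ℂ,
    eLpNorm (conv c a) p (Measure.count : Measure ℤ) ≤ K * eLpNorm (fun n : ℤ => a n) p (Measure.count : Measure ℤ)

/-- `f ∈ M_pA`: `f ∈ M_p` and the Fourier coefficients of `f` with negative index vanish. -/
def MemMA (p : ENNReal) (c : ℤ → ℂ) : Prop := MemM p c ∧ ∀ n : ℤ, n < 0 → c n = 0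

/-- The analytic extension `f(z)`, `|z| < 1`, of `f ∈ M_pA` with Fourier coefficients `c`. -/
noncomputable def val (c : ℤ → ℂ) (z : ℂ) : ℂ := ∑' n : ℕ, c n * z ^ n

/-- `m` is (restricted to `M_p`) a point of the maximal ideal space of `M_p`: a nonzero multiplicative linear
functional on `M_p`. -/
structure IsCharacter (p : ENNReal) (m : (ℤ → ℂ) → ℂ) : Prop where
  add : ∀ c d : ℤ → ℂ, MemM p c → MemM p d → m (fun n => c n + d n) = m c + m d
  smul : ∀ (r : ℂ) (c : ℤ → ℂ), MemM p c → m (fun n => r * c n) = r * m c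
  mul : ∀ c d : ℤ → ℂ, MemM p c → MemM p d → m (conv c d) = m c * m d
  nonzero : ∃ c : ℤ → ℂ, MemM p c ∧ m c ≠ 0

/-- The statement asked about in Q1, for the exponent `p`. -/
def Q1 (p : ENNReal) : Prop :=
  ∀ (n : ℕ) (f : Fin n → ℤ → ℂ) (δ : ℝ), 1 ≤ n → (∀ i, MemMA p (f i)) → 0 < δ →
    (∀ z : ℂ, ‖z‖ < 1 → δ ≤ ∑ i, ‖val (f i) z‖) →
    (∀ m : (ℤ → ℂ) → ℂ, IsCharacter p m → δ ≤ ∑ i, ‖m (f i)‖) →
    ∃ g : Fin n → ℤ → ℂ, (∀ i, MemMA p (g i)) ∧ ∀ z : ℂ, ‖z‖ < 1 → ∑ i, val (f i) z * val (g i) z = 1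

theorem conv_finsupp (c : ℤ → ℂ) (a : ℤ →₀ ℂ) (n : ℤ) : conv c a n = ∑ m ∈ a.support, c (n - m) * a m := by
  rw [conv, tsum_eq_sum (s := a.support)]
  intro k hk
  rw [Finsupp.notMem_support_iff.1 hk, mul_zero]

theorem enorm_pow4 (x : ℂ) : ‖x‖ₑ ^ (4 : ℝ) = ENNReal.ofReal (‖x‖ ^ 4) := by
  rw [← ofReal_norm, ENNReal.ofReal_pow (norm_nonneg x)]
  exact_mod_cast rfl

theorem eLp4 (f : ℤ → ℂ) : eLpNorm f 4 (Measure.count : Measure ℤ) = (∑' n : ℤ, ‖f n‖ₑ ^ (4 : ℝ)) ^ (1 / (4 : ℝ)) := by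
  have h4 : (4 : ENNReal).toReal = 4 := by simp
  rw [eLpNorm_eq_lintegral_rpow_enorm_toReal (by norm_num) (by norm_num), lintegral_count, h4]

theorem finsupp_sum (a : ℤ →₀ ℂ) : ∑' n : ℤ, ‖a n‖ₑ ^ (4 : ℝ) = ENNReal.ofReal (∑ m ∈ a.support, ‖a m‖ ^ 4) := by
  rw [tsum_eq_sum (s := a.support), ENNReal.ofReal_sum_of_nonneg (fun _ _ => by positivity)]
  · exact Finset.sum_congr rfl fun n _ => enorm_pow4 _
  · intro k hk
    rw [Finsupp.notMem_support_iff.1 hk, enorm_zero]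
    exact ENNReal.zero_rpow_of_pos (by norm_num)

theorem memM_iff (c : ℤ → ℂ) : MemM 4 c ↔ ∃ K : ℝ, 0 ≤ K ∧ ∀ (a : ℤ →₀ ℂ) (s : Finset ℤ),
    ∑ n ∈ s, ‖∑ m ∈ a.support, c (n - m) * a m‖ ^ 4 ≤ K ^ 4 * ∑ m ∈ a.support, ‖a m‖ ^ 4 := by
  have e2 : ∀ K : ℝ, 0 ≤ K → ENNReal.ofReal K ^ (4 : ℝ) = ENNReal.ofReal (K ^ 4) := by
    intro K hK
    rw [ENNReal.ofReal_pow hK]
    exact_mod_cast rfl
  constructor
  · rintro ⟨K, hK⟩
    refine ⟨K, K.2, fun a s => ?_⟩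
    have h := hK a
    rw [eLp4, eLp4] at h
    have h1 := ENNReal.rpow_le_rpow h (z := 4) (by norm_num)
    rw [← ENNReal.rpow_mul, ENNReal.mul_rpow_of_nonneg _ _ (by norm_num), ← ENNReal.rpow_mul] at h1
    simp only [show (1 / (4 : ℝ)) * 4 = 1 by norm_num, ENNReal.rpow_one] at h1
    rw [finsupp_sum] at h1
    have h2 : ENNReal.ofReal (∑ n ∈ s, ‖∑ m ∈ a.support, c (n - m) * a m‖ ^ 4) ≤
        ENNReal.ofReal ((K : ℝ) ^ 4 * ∑ m ∈ a.support, ‖a m‖ ^ 4) := by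
      rw [ENNReal.ofReal_sum_of_nonneg (fun _ _ => by positivity), ENNReal.ofReal_mul (by positivity), ← e2 (K : ℝ) K.coe_nonneg,
        ENNReal.ofReal_coe_nnreal]
      refine le_trans ?_ h1
      refine le_trans (le_of_eq ?_) (ENNReal.sum_le_tsum s)
      refine Finset.sum_congr rfl fun n _ => ?_
      rw [conv_finsupp, enorm_pow4]
    exact (ENNReal.ofReal_le_ofReal_iff (by positivity)).1 h2
  · rintro ⟨K, hK, h⟩
    refine ⟨K.toNNReal, fun a => ?_⟩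
    have hcast : ((K.toNNReal : NNReal) : ENNReal) = ENNReal.ofReal K := rfl
    rw [eLp4, eLp4, hcast, finsupp_sum]
    have key : ∑' n : ℤ, ‖conv c a n‖ₑ ^ (4 : ℝ) ≤ ENNReal.ofReal K ^ (4 : ℝ) * ENNReal.ofReal (∑ m ∈ a.support, ‖a m‖ ^ 4) := by
      rw [ENNReal.tsum_eq_iSup_sum]
      refine iSup_le fun s => ?_
      calc ∑ n ∈ s, ‖conv c a n‖ₑ ^ (4 : ℝ) = ENNReal.ofReal (∑ n ∈ s, ‖∑ m ∈ a.support, c (n - m) * a m‖ ^ 4) := by
            rw [ENNReal.ofReal_sum_of_nonneg (fun _ _ => by positivity)]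
            exact Finset.sum_congr rfl fun n _ => by rw [conv_finsupp, enorm_pow4]
        _ ≤ ENNReal.ofReal (K ^ 4 * ∑ m ∈ a.support, ‖a m‖ ^ 4) := ENNReal.ofReal_le_ofReal (h a s)
        _ = _ := by
            rw [ENNReal.ofReal_mul (by positivity), e2 K hK]
    calc (∑' n : ℤ, ‖conv c a n‖ₑ ^ (4 : ℝ)) ^ (1 / (4 : ℝ))
        ≤ (ENNReal.ofReal K ^ (4 : ℝ) * ENNReal.ofReal (∑ m ∈ a.support, ‖a m‖ ^ 4)) ^ (1 / (4 : ℝ)) := by gcongr
      _ = ENNReal.ofReal K * (ENNReal.ofReal (∑ m ∈ a.support, ‖a m‖ ^ 4)) ^ (1 / (4 : ℝ)) := by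
          rw [ENNReal.mul_rpow_of_nonneg _ _ (by norm_num), ← ENNReal.rpow_mul]
          norm_num

open NC.Alg (M MA coef ext) in
/-- every multiplier comes from an operator in `NC.Alg.M 4` -/
theorem exists_op {c : ℤ → ℂ} (hc : MemM 4 c) : ∃ T : M 4, ∀ n, coef T n = c n := by
  obtain ⟨K, hK, h⟩ := (memM_iff c).1 hc
  obtain ⟨T, hT⟩ := NC.exists_mult K hK c h
  exact ⟨⟨_, NC.Alg.ofMult T⟩, hT⟩

open NC.Alg (M MA coef ext) in
theorem memM_coef (T : M 4) : MemM 4 (coef T) :=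
  (memM_iff _).2 ⟨‖(T : NC.Alg.Ell 4 →L[ℂ] NC.Alg.Ell 4)‖, norm_nonneg _, fun a s =>
    NC.bound_of_mult ⟨_, NC.Alg.toMult T⟩ a s⟩

open NC.Alg (M MA coef ext) in
theorem val_coef (T : M 4) (z : ℂ) : val (coef T) z = ext T z := rfl

open NC.Alg (M MA coef ext) in
theorem conv_coef (T S : M 4) : conv (coef T) (coef S) = coef (T * S) := by
  funext n
  rw [NC.Alg.coef_mul, conv]

/-- the Fourier coefficients of the constant function `1` -/
def delta (n : ℤ) : ℂ := if n = 0 then 1 else 0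

open NC.Alg (M MA coef ext) in
theorem coef_one' : coef (1 : M 4) = delta := by
  funext n
  rw [NC.Alg.coef_one, delta]

open NC.Alg (M MA coef ext) in
/-- a character in the elementary sense defines an algebra homomorphism -/
theorem exists_hom {m : (ℤ → ℂ) → ℂ} (hm : IsCharacter 4 m) : ∃ χ : M 4 →ₐ[ℂ] ℂ, ∀ T, χ T = m (coef T) := by
  have h1 : m (coef (1 : M 4)) = 1 := by
    obtain ⟨c, hc, hc0⟩ := hm.nonzero
    obtain ⟨T, hT⟩ := exists_op hc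
    have e : coef T = c := funext hT
    have h2 := hm.mul _ _ (memM_coef (1 : M 4)) (memM_coef T)
    rw [conv_coef, one_mul, e] at h2
    exact (mul_right_cancel₀ hc0 (by rw [one_mul]; exact h2)).symm
  have hadd : ∀ T S : M 4, m (coef (T + S)) = m (coef T) + m (coef S) := fun T S =>
    hm.add _ _ (memM_coef T) (memM_coef S)
  have hmul : ∀ T S : M 4, m (coef (T * S)) = m (coef T) * m (coef S) := fun T S => by
    rw [← conv_coef]
    exact hm.mul _ _ (memM_coef T) (memM_coef S)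
  have hsmul : ∀ (r : ℂ) (T : M 4), m (coef (r • T)) = r * m (coef T) := fun r T =>
    hm.smul r _ (memM_coef T)
  have h0 : m (coef (0 : M 4)) = 0 := by
    have := hsmul 0 0
    rwa [zero_smul, zero_mul] at this
  exact ⟨{ toFun := fun T => m (coef T)
           map_one' := h1
           map_mul' := hmul
           map_zero' := h0
           map_add' := hadd
           commutes' := fun r => by
            change m (coef (algebraMap ℂ (M 4) r)) = r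
            rw [Algebra.algebraMap_eq_smul_one, hsmul, h1, mul_one] }, fun T => rfl⟩

/-- The counterexample. -/
theorem main : ∃ f₁ f₂ : ℤ → ℂ, MemMA 4 f₁ ∧ MemMA 4 f₂ ∧ (∃ h, MemM 4 h ∧ ∀ n, conv f₁ h n = if n = 0 then 1 else 0) ∧
    (∀ z : ℂ, ‖z‖ < 1 → 1 / 2 ≤ ‖val f₂ z‖) ∧
    ¬ ∃ g₁ g₂ : ℤ → ℂ, MemMA 4 g₁ ∧ MemMA 4 g₂ ∧
      ∀ z : ℂ, ‖z‖ < 1 → val f₁ z * val g₁ z + val f₂ z * val g₂ z = 1 := by
  obtain ⟨f₁, f₂, h1, h2, hu, hlow, hno⟩ := NC.Alg.main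
  obtain ⟨h, hh, -⟩ := isUnit_iff_exists.1 hu
  refine ⟨NC.Alg.coef f₁, NC.Alg.coef f₂, ⟨memM_coef _, h1⟩, ⟨memM_coef _, h2⟩, ⟨NC.Alg.coef h, memM_coef _, ?_⟩, hlow, ?_⟩
  · rw [conv_coef, hh]
    exact NC.Alg.coef_one
  · rintro ⟨g₁, g₂, hg₁, hg₂, hb⟩
    obtain ⟨G₁, e1⟩ := exists_op hg₁.1
    obtain ⟨G₂, e2⟩ := exists_op hg₂.1
    refine hno ⟨G₁, G₂, fun n hn => by rw [e1, hg₁.2 n hn], fun n hn => by rw [e2, hg₂.2 n hn], fun z hz => ?_⟩
    rw [← hb z hz, ← val_coef, ← val_coef, ← val_coef, ← val_coef, funext e1, funext e2]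

theorem not_Q1 : ¬ Q1 4 := by
  intro hQ
  obtain ⟨f₁, f₂, h1, h2, ⟨h, hh, hinv⟩, hlow, hno⟩ := main
  obtain ⟨F, hF⟩ := exists_op h1.1
  obtain ⟨H, hH⟩ := exists_op hh
  set C : ℝ := ‖H‖ * ‖(1 : NC.Alg.M 4)‖ with hC
  have hχ : ∀ m : (ℤ → ℂ) → ℂ, IsCharacter 4 m → 1 ≤ ‖m f₁‖ * C := by
    intro m hm
    obtain ⟨χ, hχ⟩ := exists_hom hm
    have e1 : χ F = m f₁ := by rw [hχ, funext hF]
    have e2 : χ H = m h := by rw [hχ, funext hH]
    have e3 : m f₁ * m h = 1 := by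
      rw [← hm.mul _ _ h1.1 hh]
      have : conv f₁ h = NC.Alg.coef (1 : NC.Alg.M 4) := by
        funext n
        rw [hinv, NC.Alg.coef_one]
      rw [this, ← hχ, map_one]
    calc (1 : ℝ) = ‖m f₁ * m h‖ := by rw [e3, norm_one]
      _ = ‖m f₁‖ * ‖m h‖ := norm_mul _ _
      _ ≤ ‖m f₁‖ * C := mul_le_mul_of_nonneg_left (by rw [← e2]; exact NC.Alg.char_bound χ H) (norm_nonneg _)
  have hC0 : 0 ≤ C := by positivity
  obtain ⟨g, hg, hb⟩ := hQ 2 ![f₁, f₂] (min (1 / 2) (1 / (C + 1))) (by norm_num)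
    (by intro i; fin_cases i <;> simp [h1, h2]) (by positivity)
    (by
      intro z hz
      rw [Fin.sum_univ_two]
      refine (min_le_left _ _).trans ((hlow z hz).trans ?_)
      simp only [Matrix.cons_val_zero, Matrix.cons_val_one]
      linarith [norm_nonneg (val f₁ z)])
    (by
      intro m hm
      rw [Fin.sum_univ_two]
      simp only [Matrix.cons_val_zero, Matrix.cons_val_one]
      refine (min_le_right _ _).trans ?_
      have := hχ m hm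
      have h3 : 1 / (C + 1) ≤ ‖m f₁‖ := by
        rw [div_le_iff₀ (by positivity)]
        nlinarith [norm_nonneg (m f₁)]
      linarith [norm_nonneg (m f₂)])
  refine hno ⟨g 0, g 1, hg 0, hg 1, fun z hz => ?_⟩
  have := hb z hz
  rw [Fin.sum_univ_two] at this
  exact this

/-- **Negative answer to Q1**, at `p = 4`. Moreover the counterexample has `n = 2`: there are `f₁, f₂` in `M_4A` such
that `f₁` has an inverse `h` in `M_4` and `|f₂| ≥ 1/2` on the disc (hence both lower bounds of Q1 hold for some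
`δ > 0`), but `f₁ g₁ + f₂ g₂ = 1` has no solution `g₁, g₂` in `M_4A`. -/
theorem result : ¬ Q1 4 ∧
    ∃ f₁ f₂ : ℤ → ℂ, MemMA 4 f₁ ∧ MemMA 4 f₂ ∧
      (∃ h : ℤ → ℂ, MemM 4 h ∧ ∀ n : ℤ, conv f₁ h n = if n = 0 then 1 else 0) ∧
      (∀ z : ℂ, ‖z‖ < 1 → 1 / 2 ≤ ‖val f₂ z‖) ∧
      ¬ ∃ g₁ g₂ : ℤ → ℂ, MemMA 4 g₁ ∧ MemMA 4 g₂ ∧
        ∀ z : ℂ, ‖z‖ < 1 → val f₁ z * val g₁ z + val f₂ z * val g₂ z = 1 :=
  ⟨not_Q1, main⟩

end Pool.Agent.Results.MP_3833d7_an.CoronaFails
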